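import Pool.Agent.Lib_helper43.HL.Final
import Pool.Agent.Lib_helper88.Hodge.One

/-!
# The order of the top Hodge class on `A_g`

The top Chern class `λ_g` of the Hodge bundle on `A_g` is, up to sign, the Euler class of the flat
oriented bundle with fibre `ℝ^{2g} = H₁(A; ℝ)` over `BSp_{2g}(ℤ)` (the real bundle underlying the
dual of the Hodge bundle). We prove that its order is `12` for `g = 1` and

`n_g = 2 ∏ l ^ (v_l(2g) + 1)`, the product over the primes `l` with `l - 1 ∣ 2g`,

for all `g ≥ 2` (this is the denominator of `B_{2g} / 4g`).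
-/

namespace Pool.Agent.Results.MP_e08b43_ag.TopHodgeOrder

open HodgeEuler

/-- For every `g ≥ 1` and every orientation of `ℝ^{2g}` (given by a basis `b`), the Euler class
`c ∈ H^{2g}(Sp_{2g}(ℤ); ℤ)` of the flat bundle `ℝ^{2g}` exists, is unique, and has order `12` if
`g = 1`, and `2 ∏ l ^ (v_l(2g) + 1)` (product over the primes `l` with `l - 1 ∣ 2g`) if `g ≥ 2`. -/
theorem result (g : ℕ) (hg : 1 ≤ g)
    (b : Module.Basis (Fin (2 * g)) ℝ (Fin g ⊕ Fin g → ℝ)) :
    ∃ c : groupCohomology (Rep.trivial ℤ (Matrix.symplecticGroup (Fin g) ℤ) ℤ) (2 * g),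
      (∀ c', IsEulerClass b c' ↔ c' = c) ∧
      addOrderOf c = if g = 1 then 12 else
        2 * ∏ l ∈ (Finset.range (2 * g + 2)).filter (fun l => l.Prime ∧ (l - 1) ∣ 2 * g),
          l ^ (padicValNat l (2 * g) + 1) := by
  rcases Nat.lt_or_ge 1 g with h | h
  · rw [if_neg (by omega)]
    exact Pool.Agent.HL.order_isEulerClass g h b
  · obtain rfl : g = 1 := by omega
    rw [if_pos rfl]
    obtain ⟨c, hc⟩ := exists_eulerClass (n := 1) b (fun A v => sp_det_invariant b A v)
    refine ⟨c, fun c' => ⟨fun h => ?_, fun h => h ▸ hc⟩, ?_⟩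
    · exact eulerClass_unique (n := 1) b (fun A v => sp_det_invariant b A v) h hc
    · have hord := Pool.Agent.HL.addOrderOf_of_isEulerClass 1 (by norm_num) b c hc
      have hker : ∀ k : ℤ, k • c = 0 ↔ k • Pool.Agent.HL.hodgeTop 1 (by norm_num) = 0 := by
        intro k
        rw [← addOrderOf_dvd_iff_zsmul_eq_zero, ← addOrderOf_dvd_iff_zsmul_eq_zero, hord]
      refine genus_one b hc ?_ (fun k hk => ?_)
      · rw [hker]
        have h1 := Pool.Agent.HL.ng_kills (Pool.Agent.HL.hodgeTop 1 (by norm_num)) 2 4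
          (by norm_num) (by norm_num)
          (fun p hp => Pool.Agent.HLU.upper_hodge 1 (by norm_num) p hp)
        have h2 : Pool.Agent.HL.ng 2 = 24 := by
          rw [Pool.Agent.HL.ng]
          have h3 : (Finset.range (2 + 2)).filter (fun l => l.Prime ∧ (l - 1) ∣ 2) = {2, 3} := by
            decide
          rw [h3, Finset.prod_pair (by norm_num), padicValNat.self (by norm_num),
            padicValNat.eq_zero_of_not_dvd (by norm_num)]
          norm_num
        rw [h2] at h1
        exact_mod_cast h1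
      · have h1 := Pool.Agent.HL.odd_part 1 (by norm_num) 3 Nat.prime_three (by norm_num)
          (by norm_num) k ((hker k).mp hk)
        exact dvd_trans (dvd_pow_self _ (by omega)) h1

end Pool.Agent.Results.MP_e08b43_ag.TopHodgeOrder
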